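import Mathlib

/-!
MP_680f50_nt: least degree of a polynomial extending a multiplicity matrix.

Partial answer to Q1, for every field `K` of characteristic `0`.

1. Two nodes (`m = 2`).  For every `2 × (n + 1)` multiplicity matrix `M` and all distinct nodes,
   `N(M, Λ)` is the maximum over `k = 0, …, n` of `k + #{(i, j) : k ≤ j ≤ n, μ_{i,j} ≥ 1}`.
2. Any number `m ≥ 1` of nodes.  `N(M, Λ)` is the least `d ≥ n` such that no row of order `j ≤ n`
   at `λ_i` with `μ_{i,j} = 0` lies in the span of the rows with `μ_{i,j} ≥ 1`, where the row of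
   order `j` at `x` lists the values of `F ↦ F^(j)(x)` at `F = 1, X, …, X^d`.
3. Any number `m ≥ 1` of nodes.  If `μ_{i,j} ≥ 1` implies `j < c_i`, then
   `N(M, Λ) ≤ n + max_{i0} ∑_{i ≠ i0} c_i` (at most `m n`).

The proof of 1 uses the theorem of Polya on two-point Birkhoff interpolation; it is proved here
over the reals with the theorem of Rolle and transferred to `K` by a Gram determinant.
-/

set_option autoImplicit false
set_option linter.unusedVariables false
set_option linter.unusedSimpArgs false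
set_option maxHeartbeats 4000000

namespace Pool.Agent.Results.MP_680f50_nt.TwoNodes

open Polynomial

/-- An `m × (n + 1)` multiplicity matrix: rows `Fin m`, columns `0, …, n` (entries in columns
beyond `n` are not used). -/
structure IsMultMatrix {m : ℕ} (n : ℕ) (M : Fin m → ℕ → ℕ) : Prop where
  last : ∀ i, M i n = 0
  step : ∀ i, ∀ j < n, 1 ≤ M i j → M i (j + 1) = M i j - 1
  sum : ∀ j ≤ n, ∑ i, M i j ≤ n - j

/-- `F` (nonzero, of degree at least `n`) extends `M` with respect to `Λ`. -/
def Extends {K : Type} [Field K] {m : ℕ} (n : ℕ) (M : Fin m → ℕ → ℕ) (Λ : Fin m → K)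
    (F : K[X]) : Prop :=
  F ≠ 0 ∧ n ≤ F.natDegree ∧ ∀ i, ∀ j ≤ n, (derivative^[j] F).rootMultiplicity (Λ i) = M i j

/-- `N(M, Λ)`: the smallest degree of a polynomial extending `M` with respect to `Λ`. -/
noncomputable def N {K : Type} [Field K] {m : ℕ} (n : ℕ) (M : Fin m → ℕ → ℕ) (Λ : Fin m → K) : ℕ :=
  sInf {d | ∃ F : K[X], Extends n M Λ F ∧ F.natDegree = d}

/-- the values of the functional `F ↦ F^(j)(x)` on the monomials `1, X, …, X^d`. -/
def row {K : Type} [Field K] (d : ℕ) (x : K) (j : ℕ) : Fin (d + 1) → K :=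
  fun t => (((t : ℕ).descFactorial j : ℕ) : K) * x ^ ((t : ℕ) - j)

section part1

open Classical in
/-- number of conditions in column `l`. -/
noncomputable def col (Z : Fin 2 → ℕ → Prop) (l : ℕ) : ℕ :=
  (Finset.univ.filter (fun i : Fin 2 => Z i l)).card

/-- number of conditions in the columns before `j`. -/
noncomputable def cnt (Z : Fin 2 → ℕ → Prop) (j : ℕ) : ℕ := ∑ l ∈ Finset.range j, col Z l

theorem cnt_succ (Z : Fin 2 → ℕ → Prop) (j : ℕ) : cnt Z (j + 1) = cnt Z j + col Z j :=
  Finset.sum_range_succ _ _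

theorem iter_natDegree {K : Type*} [Field K] [CharZero K] (H : K[X]) (k : ℕ) :
    (derivative^[k] H).natDegree = H.natDegree - k := by
  induction k with
  | zero => simp
  | succ k ih =>
    rw [Function.iterate_succ_apply', natDegree_derivative, ih]
    omega

theorem iter_ne_zero {K : Type*} [Field K] [CharZero K] (H : K[X]) (hH : H ≠ 0) (k : ℕ)
    (hk : k ≤ H.natDegree) : derivative^[k] H ≠ 0 := by
  induction k with
  | zero => simpa using hH
  | succ k ih =>
    rw [Function.iterate_succ_apply', derivative_ne_zero, iter_natDegree]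
    omega

theorem rolle_step (p : ℝ[X]) (hp : derivative p ≠ 0) (s : Finset ℝ)
    (hs : ∀ x ∈ s, 0 ≤ x ∧ x ≤ 1 ∧ p.eval x = 0) :
    ∃ t : Finset ℝ, (∀ x ∈ t, 0 < x ∧ x < 1 ∧ (derivative p).eval x = 0) ∧
      s.card ≤ t.card + 1 := by
  classical
  refine ⟨(derivative p).roots.toFinset.filter (fun x => 0 < x ∧ x < 1), ?_, ?_⟩
  · intro x hx
    rw [Finset.mem_filter, Multiset.mem_toFinset, mem_roots hp] at hx
    exact ⟨hx.2.1, hx.2.2, hx.1⟩
  · apply Finset.card_le_of_interleaved
    intro x hx y hy hxy _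
    obtain ⟨z, hz, hz0⟩ := exists_deriv_eq_zero hxy (p.continuous.continuousOn)
      ((hs x hx).2.2.trans (hs y hy).2.2.symm)
    refine ⟨z, ?_, hz.1, hz.2⟩
    rw [Finset.mem_filter, Multiset.mem_toFinset, mem_roots hp]
    rw [Polynomial.deriv] at hz0
    have h1 := (hs x hx).1
    have h2 := (hs y hy).2.1
    exact ⟨hz0, lt_of_le_of_lt h1 hz.1, lt_of_lt_of_le hz.2 h2⟩

/-- the two real nodes. -/
noncomputable def nd (i : Fin 2) : ℝ := ((i : ℕ) : ℝ)

theorem nd_inj : Function.Injective nd := by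
  intro a b hab
  unfold nd at hab
  exact Fin.ext (by exact_mod_cast hab)

/-- the two-point theorem over the reals, nodes 0 and 1. -/
theorem real_two (Z : Fin 2 → ℕ → Prop) (D : ℕ) (hZ : ∀ j ≤ D + 1, j ≤ cnt Z j)
    (H : ℝ[X]) (hD : H.natDegree ≤ D)
    (h : ∀ i l, Z i l → (derivative^[l] H).eval (nd i) = 0) : H = 0 := by
  classical
  by_contra hH
  have key : ∀ k, k ≤ H.natDegree → ∃ s : Finset ℝ,
      (∀ x ∈ s, 0 ≤ x ∧ x ≤ 1 ∧ (derivative^[k] H).eval x = 0) ∧
      cnt Z (k + 1) ≤ s.card + k := by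
    intro k
    induction k with
    | zero =>
      intro _
      refine ⟨(Finset.univ.filter (fun i : Fin 2 => Z i 0)).image nd,
        ?_, ?_⟩
      · intro x hx
        rw [Finset.mem_image] at hx
        obtain ⟨i, hi, rfl⟩ := hx
        rw [Finset.mem_filter] at hi
        refine ⟨by unfold nd; positivity, ?_, h i 0 hi.2⟩
        have : (i : ℕ) ≤ 1 := by omega
        unfold nd
        exact_mod_cast this
      · rw [Finset.card_image_of_injective _ nd_inj]
        simp [cnt, col]
    | succ k ih =>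
      intro hk
      obtain ⟨s, hs, hc⟩ := ih (by omega)
      have hne : derivative (derivative^[k] H) ≠ 0 := by
        have h9 := iter_ne_zero H hH _ hk
        rw [Function.iterate_succ_apply'] at h9
        exact h9
      obtain ⟨t, ht, htc⟩ := rolle_step _ hne s hs
      have hdisj : Disjoint t ((Finset.univ.filter (fun i : Fin 2 => Z i (k + 1))).image
          nd) := by
        rw [Finset.disjoint_left]
        intro x hx hx'
        rw [Finset.mem_image] at hx'
        obtain ⟨i, hi, rfl⟩ := hx'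
        have h1 := ht _ hx
        unfold nd at h1
        have h2 : 0 < (i : ℕ) := by exact_mod_cast h1.1
        have h3 : (i : ℕ) < 1 := by exact_mod_cast h1.2.1
        omega
      refine ⟨t ∪ (Finset.univ.filter (fun i : Fin 2 => Z i (k + 1))).image
        nd, ?_, ?_⟩
      · intro x hx
        rw [Finset.mem_union] at hx
        rcases hx with hx | hx
        · have h1 := ht x hx
          rw [Function.iterate_succ_apply']
          exact ⟨h1.1.le, h1.2.1.le, h1.2.2⟩
        · rw [Finset.mem_image] at hx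
          obtain ⟨i, hi, rfl⟩ := hx
          rw [Finset.mem_filter] at hi
          refine ⟨by unfold nd; positivity, ?_, h i _ hi.2⟩
          have : (i : ℕ) ≤ 1 := by omega
          unfold nd
          exact_mod_cast this
      · rw [Finset.card_union_of_disjoint hdisj, Finset.card_image_of_injective _ nd_inj, cnt_succ]
        have : col Z (k + 1) = (Finset.univ.filter (fun i : Fin 2 => Z i (k + 1))).card := by
          unfold col
          congr
        omega
  obtain ⟨s, hs, hc⟩ := key H.natDegree le_rfl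
  have h1 := hZ (H.natDegree + 1) (by omega)
  have h2 : 0 < s.card := by omega
  obtain ⟨x, hx⟩ := Finset.card_pos.1 h2
  have h3 := (hs x hx).2.2
  have h4 : (derivative^[H.natDegree] H).natDegree = 0 := by
    rw [iter_natDegree]
    omega
  rw [eq_C_of_natDegree_eq_zero h4, eval_C] at h3
  have h5 := iter_ne_zero H hH H.natDegree le_rfl
  apply h5
  rw [eq_C_of_natDegree_eq_zero h4, h3, C_0]

end part1

section part2

open Classical in
/-- the integer matrix of the conditions at the nodes 0 and 1. -/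
noncomputable def MatZ (Z : Fin 2 → ℕ → Prop) (D : ℕ) :
    Matrix (Fin 2 × Fin (D + 1)) (Fin (D + 1)) ℤ :=
  fun r j => if Z r.1 r.2 then
    (((j : ℕ).descFactorial (r.2 : ℕ) : ℕ) : ℤ) * (((r.1 : ℕ) : ℤ)) ^ ((j : ℕ) - (r.2 : ℕ)) else 0

/-- the polynomial with coefficients `c`. -/
noncomputable def poly {R : Type*} [CommRing R] {D : ℕ} (c : Fin (D + 1) → R) : R[X] :=
  ∑ j : Fin (D + 1), C (c j) * X ^ (j : ℕ)

theorem eval_poly {R : Type*} [CommRing R] {D : ℕ} (c : Fin (D + 1) → R) (l : ℕ) (x : R) :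
    (derivative^[l] (poly c)).eval x =
      ∑ j : Fin (D + 1), (((j : ℕ).descFactorial l : ℕ) : R) * x ^ ((j : ℕ) - l) * c j := by
  unfold poly
  rw [iterate_derivative_sum, eval_finsetSum]
  refine Finset.sum_congr rfl fun j _ => ?_
  rw [iterate_derivative_C_mul, iterate_derivative_X_pow_eq_natCast_mul, eval_mul, eval_C,
    eval_mul, eval_natCast, eval_pow, eval_X]
  ring

theorem poly_coeff {R : Type*} [CommRing R] {D : ℕ} (c : Fin (D + 1) → R) (j : Fin (D + 1)) :
    (poly c).coeff (j : ℕ) = c j := by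
  unfold poly
  rw [finsetSum_coeff, Finset.sum_eq_single j]
  · simp
  · intro b _ hb
    rw [coeff_C_mul_X_pow, if_neg]
    intro h
    exact hb (Fin.ext h.symm)
  · intro h
    exact absurd (Finset.mem_univ _) h

theorem poly_natDegree {R : Type*} [CommRing R] {D : ℕ} (c : Fin (D + 1) → R) :
    (poly c).natDegree ≤ D := by
  unfold poly
  refine natDegree_sum_le_of_forall_le _ _ fun j _ => ?_
  exact (natDegree_C_mul_X_pow_le _ _).trans (by omega)

theorem poly_eq {R : Type*} [CommRing R] {D : ℕ} (F : R[X]) (hF : F.natDegree ≤ D) :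
    F = poly (fun j : Fin (D + 1) => F.coeff j) := by
  ext k
  by_cases hk : k < D + 1
  · exact (poly_coeff (fun j : Fin (D + 1) => F.coeff j) ⟨k, hk⟩).symm
  · rw [coeff_eq_zero_of_natDegree_lt (by omega),
      coeff_eq_zero_of_natDegree_lt (lt_of_le_of_lt (poly_natDegree _) (by omega))]

theorem mulVec_eq {K : Type*} [Field K] (Z : Fin 2 → ℕ → Prop) (D : ℕ)
    (c : Fin (D + 1) → K) (i : Fin 2) (l : Fin (D + 1)) (h : Z i l) :
    Matrix.mulVec ((MatZ Z D).map (Int.castRingHom K)) c (i, l) =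
      (derivative^[(l : ℕ)] (poly c)).eval (((i : ℕ) : K)) := by
  rw [eval_poly, Matrix.mulVec, dotProduct]
  refine Finset.sum_congr rfl fun j _ => ?_
  simp only [Matrix.map_apply, MatZ, if_pos h]
  simp

theorem mulVec_eq0 {K : Type*} [Field K] (Z : Fin 2 → ℕ → Prop) (D : ℕ)
    (c : Fin (D + 1) → K) (i : Fin 2) (l : Fin (D + 1)) (h : ¬ Z i l) :
    Matrix.mulVec ((MatZ Z D).map (Int.castRingHom K)) c (i, l) = 0 := by
  rw [Matrix.mulVec, dotProduct]
  refine Finset.sum_eq_zero fun j _ => ?_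
  simp only [Matrix.map_apply, MatZ, if_neg h]
  simp

theorem gram_map {K : Type*} [Field K] (Z : Fin 2 → ℕ → Prop) (D : ℕ) :
    ((((MatZ Z D).transpose * MatZ Z D).det : ℤ) : K) =
      ((((MatZ Z D).map (Int.castRingHom K)).transpose *
        (MatZ Z D).map (Int.castRingHom K))).det := by
  have h1 := RingHom.map_det (Int.castRingHom K) ((MatZ Z D).transpose * MatZ Z D)
  rw [RingHom.mapMatrix_apply, Matrix.map_mul] at h1
  exact h1

theorem gram_ne (Z : Fin 2 → ℕ → Prop) (D : ℕ) (hZ : ∀ j ≤ D + 1, j ≤ cnt Z j) :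
    ((MatZ Z D).transpose * MatZ Z D).det ≠ 0 := by
  intro h0
  have h1 := gram_map (K := ℝ) Z D
  rw [h0, Int.cast_zero] at h1
  obtain ⟨v, hv, hv0⟩ := Matrix.exists_mulVec_eq_zero_iff.2 h1.symm
  apply hv
  have h2 : Matrix.mulVec ((MatZ Z D).map (Int.castRingHom ℝ)) v = 0 := by
    rw [← dotProduct_self_eq_zero]
    rw [← Matrix.mulVec_mulVec] at hv0
    have h3 : dotProduct v (Matrix.mulVec ((MatZ Z D).map (Int.castRingHom ℝ)).transpose
      (Matrix.mulVec ((MatZ Z D).map (Int.castRingHom ℝ)) v)) = 0 := by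
      rw [hv0, dotProduct_zero]
    rw [Matrix.dotProduct_mulVec, Matrix.vecMul_transpose] at h3
    exact h3
  have h4 : poly v = 0 := by
    refine real_two Z D hZ _ (poly_natDegree v) fun i l hil => ?_
    by_cases hl : l < D + 1
    · have h5 := congrFun h2 (i, ⟨l, hl⟩)
      rw [mulVec_eq Z D v i ⟨l, hl⟩ hil] at h5
      exact h5
    · rw [iterate_derivative_eq_zero (lt_of_le_of_lt (poly_natDegree v) (by omega)), eval_zero]
  funext j
  rw [← poly_coeff v j, h4]
  simp

/-- the two-point theorem, nodes 0 and 1. -/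
theorem field_two01 {K : Type*} [Field K] [CharZero K] (Z : Fin 2 → ℕ → Prop) (D : ℕ)
    (hZ : ∀ j ≤ D + 1, j ≤ cnt Z j) (F : K[X]) (hD : F.natDegree ≤ D)
    (h : ∀ i l, Z i l → (derivative^[l] F).eval (((i : ℕ) : K)) = 0) : F = 0 := by
  have h1 : Matrix.mulVec ((MatZ Z D).map (Int.castRingHom K))
      (fun j : Fin (D + 1) => F.coeff j) = 0 := by
    funext r
    obtain ⟨i, l⟩ := r
    by_cases hil : Z i l
    · rw [mulVec_eq Z D _ i l hil, ← poly_eq F hD, h i l hil]
      rfl
    · rw [mulVec_eq0 Z D _ i l hil]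
      rfl
  have h2 : (((MatZ Z D).map (Int.castRingHom K)).transpose *
        (MatZ Z D).map (Int.castRingHom K)).det ≠ 0 := by
    rw [← gram_map]
    exact_mod_cast gram_ne Z D hZ
  have h3 : Matrix.mulVec (((MatZ Z D).map (Int.castRingHom K)).transpose *
        (MatZ Z D).map (Int.castRingHom K)) (fun j : Fin (D + 1) => F.coeff j) = 0 := by
    rw [← Matrix.mulVec_mulVec, h1, Matrix.mulVec_zero]
  have h4 := Matrix.eq_zero_of_mulVec_eq_zero h2 h3
  rw [poly_eq F hD, h4]
  simp [poly]

theorem iter_comp {K : Type*} [Field K] (F : K[X]) (a b : K) (l : ℕ) :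
    derivative^[l] (F.comp (C a * X + C b)) =
      C (a ^ l) * (derivative^[l] F).comp (C a * X + C b) := by
  induction l with
  | zero => simp
  | succ l ih =>
    rw [Function.iterate_succ_apply', Function.iterate_succ_apply', ih, derivative_C_mul,
      derivative_comp]
    simp only [derivative_add, derivative_mul, derivative_C, derivative_X, zero_mul, mul_one,
      zero_add, add_zero]
    rw [pow_succ, C_mul]
    ring

/-- the two-point theorem. -/
theorem field_two {K : Type*} [Field K] [CharZero K] (x : Fin 2 → K) (hx : x 0 ≠ x 1)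
    (Z : Fin 2 → ℕ → Prop) (D : ℕ)
    (hZ : ∀ j ≤ D + 1, j ≤ cnt Z j) (F : K[X]) (hD : F.natDegree ≤ D)
    (h : ∀ i l, Z i l → (derivative^[l] F).eval (x i) = 0) : F = 0 := by
  have ha : x 1 - x 0 ≠ 0 := sub_ne_zero.2 (Ne.symm hx)
  have hq : (C (x 1 - x 0) * X + C (x 0)).natDegree = 1 := natDegree_linear ha
  have h1 : F.comp (C (x 1 - x 0) * X + C (x 0)) = 0 := by
    refine field_two01 Z D hZ _ ?_ fun i l hil => ?_
    · rw [natDegree_comp, hq, mul_one]
      exact hD
    · rw [iter_comp, eval_mul, eval_comp]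
      have h2 : (C (x 1 - x 0) * X + C (x 0)).eval (((i : ℕ) : K)) = x i := by
        fin_cases i
        · simp
        · simp
      rw [h2, h i l hil, mul_zero]
  rcases comp_eq_zero_iff.1 h1 with h2 | h2
  · exact h2
  · exfalso
    rw [h2.2, natDegree_C] at hq
    omega

end part2

section part3

theorem avoid {K V ι : Type*} [Field K] [Infinite K] [AddCommGroup V] [Module K V]
    (W : Submodule K V) (T : Finset ι) (L : ι → V →ₗ[K] K)
    (h : ∀ t ∈ T, ∃ v ∈ W, L t v ≠ 0) : ∃ v ∈ W, ∀ t ∈ T, L t v ≠ 0 := by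
  classical
  induction T using Finset.induction_on with
  | empty => exact ⟨0, W.zero_mem, by simp⟩
  | insert a T ha ih =>
    obtain ⟨v, hv, hvT⟩ := ih (fun t ht => h t (Finset.mem_insert_of_mem ht))
    obtain ⟨w, hw, hwa⟩ := h a (Finset.mem_insert_self _ _)
    obtain ⟨c, hc⟩ := Infinite.exists_notMem_finset
      ((insert a T).image (fun t => - L t v / L t w))
    refine ⟨v + c • w, W.add_mem hv (W.smul_mem _ hw), fun t ht => ?_⟩
    rw [map_add, map_smul, smul_eq_mul]
    intro h0
    by_cases hw0 : L t w = 0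
    · rw [hw0, mul_zero, add_zero] at h0
      rcases Finset.mem_insert.1 ht with rfl | ht'
      · exact hwa hw0
      · exact hvT t ht' h0
    · apply hc
      rw [Finset.mem_image]
      refine ⟨t, ht, ?_⟩
      rw [div_eq_iff hw0]
      linear_combination -h0

/-- the functional `F ↦ F^(j)(x)`. -/
noncomputable def ev {K : Type} [Field K] (x : K) (j : ℕ) : K[X] →ₗ[K] K where
  toFun F := (derivative^[j] F).eval x
  map_add' F G := by rw [iterate_map_add, eval_add]
  map_smul' c F := by rw [iterate_derivative_smul, eval_smul]; rfl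

theorem ev_apply {K : Type} [Field K] (x : K) (j : ℕ) (F : K[X]) :
    ev x j F = (derivative^[j] F).eval x := rfl

/-- polynomials of degree at most `D` satisfying the conditions. -/
def condSpace {K : Type} [Field K] {m : ℕ} (D : ℕ) (Z : Fin m → ℕ → Prop) (Λ : Fin m → K) :
    Submodule K K[X] where
  carrier := {F | F.natDegree ≤ D ∧ ∀ i l, Z i l → ev (Λ i) l F = 0}
  add_mem' := by
    intro F G hF hG
    refine ⟨(natDegree_add_le _ _).trans (max_le hF.1 hG.1), fun i l h => ?_⟩
    rw [map_add, hF.2 i l h, hG.2 i l h, add_zero]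
  zero_mem' := ⟨by simp, fun i l h => map_zero _⟩
  smul_mem' := by
    intro c F hF
    refine ⟨(natDegree_smul_le _ _).trans hF.1, fun i l h => ?_⟩
    rw [map_smul, hF.2 i l h, smul_zero]

theorem mem_condSpace {K : Type} [Field K] {m : ℕ} (D : ℕ) (Z : Fin m → ℕ → Prop)
    (Λ : Fin m → K) (F : K[X]) :
    F ∈ condSpace D Z Λ ↔ F.natDegree ≤ D ∧ ∀ i l, Z i l → ev (Λ i) l F = 0 := Iff.rfl

theorem pattern {K : Type} [Field K] [CharZero K] {m n : ℕ} (M : Fin m → ℕ → ℕ)
    (hM : IsMultMatrix n M) (Λ : Fin m → K) (F : K[X]) (hF : F ≠ 0) (hn : n ≤ F.natDegree) :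
    (∀ i, ∀ j ≤ n, (derivative^[j] F).rootMultiplicity (Λ i) = M i j) ↔
      ∀ i, ∀ j ≤ n, (ev (Λ i) j F = 0 ↔ 1 ≤ M i j) := by
  constructor
  · intro h i j hj
    have h1 := iter_ne_zero F hF j (hj.trans hn)
    rw [← h i j hj, ev_apply]
    exact (rootMultiplicity_pos h1).symm
  · intro h i
    have key : ∀ t j, j + t = n → (derivative^[j] F).rootMultiplicity (Λ i) = M i j := by
      intro t
      induction t with
      | zero =>
        intro j hj
        have hj' : j = n := by omega
        subst hj'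
        rw [hM.last i]
        apply rootMultiplicity_eq_zero
        intro h2
        have h3 := (h i j le_rfl).1 h2
        rw [hM.last i] at h3
        omega
      | succ t ih =>
        intro j hj
        have h1 := ih (j + 1) (by omega)
        have hjn : j < n := by omega
        by_cases h0 : 1 ≤ M i j
        · have h2 : (derivative^[j] F).IsRoot (Λ i) := (h i j hjn.le).2 h0
          have h3 := derivative_rootMultiplicity_of_root h2
          rw [Function.iterate_succ_apply'] at h1
          have h4 := (rootMultiplicity_pos (iter_ne_zero F hF j (hjn.le.trans hn))).2 h2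
          have h5 := hM.step i j hjn h0
          omega
        · have h2 : M i j = 0 := by omega
          rw [h2]
          apply rootMultiplicity_eq_zero
          intro h3
          exact h0 ((h i j hjn.le).1 h3)
    intro j hj
    exact key (n - j) j (by omega)

/-- the coefficients map. -/
noncomputable def polyLin (K : Type) [Field K] (D : ℕ) : (Fin (D + 1) → K) →ₗ[K] K[X] where
  toFun v := poly v
  map_add' v w := by
    unfold poly
    rw [← Finset.sum_add_distrib]
    refine Finset.sum_congr rfl fun j _ => ?_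
    rw [Pi.add_apply, C_add]
    ring
  map_smul' c v := by
    unfold poly
    rw [RingHom.id_apply, Finset.smul_sum]
    refine Finset.sum_congr rfl fun j _ => ?_
    rw [Pi.smul_apply, smul_eq_mul, C_mul, smul_eq_C_mul]
    ring

/-- the columns sum: `k` plus the number of conditions in the columns from `k` on. -/
noncomputable def g (n : ℕ) (Z : Fin 2 → ℕ → Prop) (k : ℕ) : ℕ :=
  k + ∑ l ∈ Finset.Ico k (n + 1), col Z l

theorem col_zero (Z : Fin 2 → ℕ → Prop) (l : ℕ) (h : ∀ i, ¬ Z i l) : col Z l = 0 := by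
  classical
  unfold col
  rw [Finset.card_eq_zero, Finset.filter_eq_empty_iff]
  intro i _
  exact h i

theorem col_pos (Z : Fin 2 → ℕ → Prop) (l : ℕ) (h : col Z l = 0) : ∀ i, ¬ Z i l := by
  classical
  unfold col at h
  rw [Finset.card_eq_zero, Finset.filter_eq_empty_iff] at h
  intro i
  exact h (Finset.mem_univ i)

theorem col_congr (Z Z' : Fin 2 → ℕ → Prop) (l l' : ℕ) (h : ∀ i, Z i l ↔ Z' i l') :
    col Z l = col Z' l' := by
  classical
  unfold col
  congr 1
  ext i
  simp [h i]

/-- filling the deficits. -/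
noncomputable def cc (s : ℕ → ℕ) : ℕ → ℕ
  | 0 => 0
  | l + 1 => max (cc s l + s l) (l + 1)

theorem le_cc (s : ℕ → ℕ) (j : ℕ) : j ≤ cc s j := by
  cases j with
  | zero => exact Nat.zero_le _
  | succ j => exact le_max_right _ _

theorem cc_le (s : ℕ → ℕ) (D : ℕ)
    (h : ∀ k ≤ D + 1, k + ∑ l ∈ Finset.Ico k (D + 1), s l ≤ D + 1) (j : ℕ) (hj : j ≤ D + 1) :
    cc s j + ∑ l ∈ Finset.Ico j (D + 1), s l ≤ D + 1 := by
  induction j with
  | zero =>
    have := h 0 (by omega)
    simpa [cc] using this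
  | succ j ih =>
    have h1 := ih (by omega)
    have h2 := h (j + 1) hj
    rw [Finset.sum_eq_sum_Ico_succ_bot (by omega)] at h1
    simp only [cc]
    rcases le_total (cc s j + s j) (j + 1) with h3 | h3
    · rw [max_eq_right h3]
      exact h2
    · rw [max_eq_left h3]
      omega

end part3

section part4

theorem col_def (Z : Fin 2 → ℕ → Prop) (l : ℕ) (inst : DecidablePred (fun i : Fin 2 => Z i l)) :
    col Z l = (Finset.univ.filter (fun i : Fin 2 => Z i l)).card := by
  unfold col
  congr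

/-- if the counts allow it, one more condition is independent of the given ones. -/
theorem exists_one {K : Type} [Field K] [CharZero K] (x : Fin 2 → K) (hx : x 0 ≠ x 1)
    (n D : ℕ) (hnD : n ≤ D) (Z : Fin 2 → ℕ → Prop) (hZn : ∀ i l, Z i l → l ≤ n)
    (hg : ∀ k ≤ n, g n Z k ≤ D) (i0 : Fin 2) (k0 : ℕ) (hk0 : k0 ≤ n) (h0 : ¬ Z i0 k0) :
    ∃ F ∈ condSpace D Z x, ev (x i0) k0 F ≠ 0 := by
  classical
  set Z1 : Fin 2 → ℕ → Prop := fun i l => Z i l ∨ (i = i0 ∧ l = k0) with hZ1
  set s : ℕ → ℕ := fun l => col Z1 l with hs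
  have hcol1 : ∀ l, s l ≤ col Z l + (if l = k0 then 1 else 0) := by
    intro l
    by_cases hl : l = k0
    · rw [if_pos hl]
      have h1 : (Finset.univ.filter (fun i : Fin 2 => Z1 i l)) ⊆
          insert i0 (Finset.univ.filter (fun i : Fin 2 => Z i l)) := by
        intro i hi
        rw [Finset.mem_filter] at hi
        rw [Finset.mem_insert, Finset.mem_filter]
        rcases hi.2 with h2 | h2
        · exact Or.inr ⟨Finset.mem_univ _, h2⟩
        · exact Or.inl h2.1
      have h2 : s l = (Finset.univ.filter (fun i : Fin 2 => Z1 i l)).card := col_def Z1 l _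
      have h3 : col Z l = (Finset.univ.filter (fun i : Fin 2 => Z i l)).card := col_def Z l _
      rw [h2, h3]
      exact le_trans (Finset.card_le_card h1) (Finset.card_insert_le _ _)
    · rw [if_neg hl, add_zero]
      have : s l = col Z l := by
        refine col_congr Z1 Z l l fun i => ?_
        simp [hZ1, hl]
      rw [this]
  have hcolbig : ∀ l, n < l → s l = 0 := by
    intro l hl
    refine col_zero _ _ fun i hi => ?_
    rcases hi with hi | hi
    · have := hZn i l hi
      omega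
    · omega
  have hup : ∀ k ≤ D + 1, k + ∑ l ∈ Finset.Ico k (D + 1), s l ≤ D + 1 := by
    intro k hk
    by_cases hkn : k ≤ n
    · have h1 : ∑ l ∈ Finset.Ico k (D + 1), s l = ∑ l ∈ Finset.Ico k (n + 1), s l := by
        rw [← Finset.sum_Ico_consecutive s (show k ≤ n + 1 by omega) (show n + 1 ≤ D + 1 by omega)]
        have : ∑ l ∈ Finset.Ico (n + 1) (D + 1), s l = 0 := by
          refine Finset.sum_eq_zero fun l hl => ?_
          rw [Finset.mem_Ico] at hl
          exact hcolbig l (by omega)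
        omega
      have h2 : ∑ l ∈ Finset.Ico k (n + 1), s l ≤
          ∑ l ∈ Finset.Ico k (n + 1), (col Z l + (if l = k0 then 1 else 0)) :=
        Finset.sum_le_sum fun l _ => hcol1 l
      rw [Finset.sum_add_distrib, Finset.sum_ite_eq'] at h2
      have h3 := hg k hkn
      unfold g at h3
      have h4 : (if k0 ∈ Finset.Ico k (n + 1) then 1 else 0) ≤ 1 := by
        split <;> omega
      omega
    · have h1 : ∑ l ∈ Finset.Ico k (D + 1), s l = 0 := by
        refine Finset.sum_eq_zero fun l hl => ?_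
        rw [Finset.mem_Ico] at hl
        exact hcolbig l (by omega)
      omega
  set Z' : Fin 2 → ℕ → Prop := fun i l => Z1 i l ∨ (i = 0 ∧ cc s l + s l < l + 1) with hZ'
  have hcol' : ∀ l, cc s l + col Z' l = cc s (l + 1) := by
    intro l
    have h1 := le_cc s l
    by_cases h2 : cc s l + s l < l + 1
    · have h3 : s l = 0 := by omega
      have h4 : col Z' l = 1 := by
        have h5 := col_pos Z1 l h3
        have h6 : col Z' l = (Finset.univ.filter (fun i : Fin 2 => Z' i l)).card :=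
          col_def Z' l _
        rw [h6]
        refine Finset.card_eq_one.2 ⟨0, ?_⟩
        refine Finset.ext fun i => ⟨fun h => ?_, fun h => ?_⟩
        · rcases (Finset.mem_filter.1 h).2 with h | h
          · exact absurd h (h5 i)
          · exact Finset.mem_singleton.2 h.1
        · exact Finset.mem_filter.2 ⟨Finset.mem_univ _, Or.inr ⟨Finset.mem_singleton.1 h, h2⟩⟩
      rw [h4]
      simp only [cc]
      omega
    · have h4 : col Z' l = s l := by
        refine col_congr Z' Z1 l l fun i => ?_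
        simp only [hZ', h2, and_false, or_false]
      rw [h4]
      simp only [cc]
      omega
  have hcnt : ∀ j, cnt Z' j = cc s j := by
    intro j
    induction j with
    | zero => simp [cnt, cc]
    | succ j ih => rw [cnt_succ, ih, hcol']
  have hlow : ∀ j ≤ D + 1, j ≤ cnt Z' j := fun j _ => by rw [hcnt]; exact le_cc s j
  have htot : cnt Z' (D + 1) = D + 1 := by
    have h1 := cc_le s D hup (D + 1) le_rfl
    have h2 := hlow (D + 1) le_rfl
    rw [hcnt] at h2 ⊢
    omega
  -- the other conditions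
  set E0 : Finset (Σ _ : ℕ, Fin 2) := (Finset.range (D + 1)).sigma
    (fun l => Finset.univ.filter (fun i : Fin 2 => Z' i l)) with hE0
  have hE0c : E0.card = D + 1 := by
    rw [hE0, Finset.card_sigma]
    refine Eq.trans ?_ htot
    unfold cnt
    exact Finset.sum_congr rfl fun l _ => (col_def Z' l _).symm
  have hmem : (⟨k0, i0⟩ : Σ _ : ℕ, Fin 2) ∈ E0 := by
    rw [hE0, Finset.mem_sigma, Finset.mem_range, Finset.mem_filter]
    exact ⟨by show k0 < D + 1; omega, Finset.mem_univ _, Or.inl (Or.inr ⟨rfl, rfl⟩)⟩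
  set E : Finset (Σ _ : ℕ, Fin 2) := E0.erase ⟨k0, i0⟩ with hE
  have hEc : E.card = D := by
    rw [hE, Finset.card_erase_of_mem hmem, hE0c]
    omega
  have hker : LinearMap.ker (LinearMap.pi
      (fun e : E => (ev (x e.1.2) e.1.1) ∘ₗ polyLin K D)) ≠ ⊥ := by
    apply LinearMap.ker_ne_bot_of_finrank_lt
    rw [Module.finrank_fin_fun, Module.finrank_fintype_fun_eq_card, Fintype.card_coe, hEc]
    omega
  obtain ⟨v, hv, hv0⟩ := Submodule.exists_mem_ne_zero_of_ne_bot hker
  have hve : ∀ e ∈ E, ev (x e.2) e.1 (poly v) = 0 := by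
    intro e he
    have h1 := congrFun (LinearMap.mem_ker.1 hv) ⟨e, he⟩
    exact h1
  have hpz : poly v ≠ 0 := by
    intro h
    apply hv0
    funext j
    rw [← poly_coeff v j, h]
    simp
  refine ⟨poly v, ⟨poly_natDegree v, fun i l hil => ?_⟩, ?_⟩
  · have hl := hZn i l hil
    refine hve ⟨l, i⟩ ?_
    rw [hE, Finset.mem_erase, hE0, Finset.mem_sigma, Finset.mem_range, Finset.mem_filter]
    refine ⟨?_, by show l < D + 1; omega, Finset.mem_univ _, Or.inl (Or.inl hil)⟩
    intro h
    rw [Sigma.mk.injEq] at h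
    obtain ⟨h1, h2⟩ := h
    subst h1
    rw [eq_of_heq h2] at hil
    exact h0 hil
  · intro hz
    apply hpz
    refine field_two x hx Z' D hlow (poly v) (poly_natDegree v) fun i l hil => ?_
    by_cases hl : l < D + 1
    · by_cases hli : (⟨l, i⟩ : Σ _ : ℕ, Fin 2) = ⟨k0, i0⟩
      · rw [Sigma.mk.injEq] at hli
        obtain ⟨h1, h2⟩ := hli
        subst h1
        rw [eq_of_heq h2]
        exact hz
      · have := hve ⟨l, i⟩ (by
          rw [hE, Finset.mem_erase, hE0, Finset.mem_sigma, Finset.mem_range, Finset.mem_filter]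
          exact ⟨hli, hl, Finset.mem_univ _, hil⟩)
        exact this
    · rw [iterate_derivative_eq_zero (lt_of_le_of_lt (poly_natDegree v) (by omega)), eval_zero]

/-- lower bound. -/
theorem lower {K : Type} [Field K] [CharZero K] (x : Fin 2 → K) (hx : x 0 ≠ x 1)
    (n : ℕ) (M : Fin 2 → ℕ → ℕ) (hM : IsMultMatrix n M) (F : K[X]) (hF : Extends n M x F)
    (k : ℕ) (hk : k ≤ n) : g n (fun i l => l ≤ n ∧ 1 ≤ M i l) k ≤ F.natDegree := by
  classical
  set Z : Fin 2 → ℕ → Prop := fun i l => l ≤ n ∧ 1 ≤ M i l with hZ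
  by_contra hcon
  push Not at hcon
  obtain ⟨hF0, hFn, hFe⟩ := hF
  have hpat := (pattern M hM x F hF0 hFn).1 hFe
  obtain ⟨q, hq, hqmax⟩ := Finset.exists_max_image (Finset.range (n + 1)) (g n Z)
    ⟨0, Finset.mem_range.2 (by omega)⟩
  rw [Finset.mem_range] at hq
  have h1 : F.natDegree < g n Z q := lt_of_lt_of_le hcon (hqmax k (Finset.mem_range.2 (by omega)))
  have hD : (derivative^[q] F).natDegree ≤ F.natDegree - q := by rw [iter_natDegree]
  have h2 : derivative^[q] F = 0 := by
    refine field_two x hx (fun i l => Z i (q + l)) (F.natDegree - q) ?_ _ hD ?_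
    · intro j hj
      have hc : cnt (fun i l => Z i (q + l)) j = ∑ l ∈ Finset.Ico q (q + j), col Z l := by
        unfold cnt
        rw [Finset.sum_Ico_eq_sum_range]
        rw [show q + j - q = j by omega]
        exact Finset.sum_congr rfl fun l _ => col_congr _ _ _ _ fun i => Iff.rfl
      rw [hc]
      unfold g at h1
      by_cases hjn : q + j ≤ n
      · have h3 := hqmax (q + j) (Finset.mem_range.2 (by omega))
        unfold g at h3
        have h4 := Finset.sum_Ico_consecutive (col Z) (show q ≤ q + j by omega)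
          (show q + j ≤ n + 1 by omega)
        omega
      · have h4 := Finset.sum_Ico_consecutive (col Z) (show q ≤ n + 1 by omega)
          (show n + 1 ≤ q + j by omega)
        omega
    · intro i l hil
      rw [← Function.iterate_add_apply, add_comm l q]
      exact (hpat i (q + l) hil.1).2 hil.2
  exact iter_ne_zero F hF0 q (by omega) h2

/-- upper bound. -/
theorem upper {K : Type} [Field K] [CharZero K] (x : Fin 2 → K) (hx : x 0 ≠ x 1)
    (n : ℕ) (M : Fin 2 → ℕ → ℕ) (hM : IsMultMatrix n M) (D : ℕ) (hnD : n ≤ D)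
    (hg : ∀ k ≤ n, g n (fun i l => l ≤ n ∧ 1 ≤ M i l) k ≤ D) :
    ∃ F : K[X], Extends n M x F ∧ F.natDegree ≤ D := by
  classical
  set Z : Fin 2 → ℕ → Prop := fun i l => l ≤ n ∧ 1 ≤ M i l with hZ
  obtain ⟨F, hF, hFT⟩ := avoid (condSpace D Z x)
    ((Finset.univ ×ˢ Finset.range (n + 1)).filter (fun p : Fin 2 × ℕ => ¬ Z p.1 p.2))
    (fun p => ev (x p.1) p.2) (by
      intro p hp
      rw [Finset.mem_filter, Finset.mem_product, Finset.mem_range] at hp
      exact exists_one x hx n D hnD Z (fun i l h => h.1) hg p.1 p.2 (by omega) hp.2)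
  have hFT' : ∀ i, ∀ j ≤ n, ¬ Z i j → ev (x i) j F ≠ 0 := by
    intro i j hj hij
    exact hFT (i, j) (by
      rw [Finset.mem_filter, Finset.mem_product, Finset.mem_range]
      exact ⟨⟨Finset.mem_univ _, by show j < n + 1; omega⟩, hij⟩)
  have h1 : ev (x 0) n F ≠ 0 := by
    refine hFT' 0 n le_rfl ?_
    rintro ⟨_, h⟩
    rw [hM.last 0] at h
    omega
  have hF0 : F ≠ 0 := by
    intro h
    apply h1
    rw [h, map_zero]
  have hFn : n ≤ F.natDegree := by
    by_contra h
    apply h1
    rw [ev_apply, iterate_derivative_eq_zero (by omega), eval_zero]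
  refine ⟨F, ⟨hF0, hFn, ?_⟩, hF.1⟩
  rw [pattern M hM x F hF0 hFn]
  intro i j hj
  constructor
  · intro h
    by_contra h2
    exact hFT' i j hj (fun h3 => h2 h3.2) h
  · intro h
    exact hF.2 i j ⟨hj, h⟩

end part4

section part5

theorem ev_poly {K : Type} [Field K] (d : ℕ) (x : K) (j : ℕ) (c : Fin (d + 1) → K) :
    ev x j (poly c) = ∑ t, row d x j t * c t := by
  rw [ev_apply, eval_poly]
  rfl

theorem ev_eq {K : Type} [Field K] (d : ℕ) (x : K) (j : ℕ) (F : K[X]) (hF : F.natDegree ≤ d) :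
    ev x j F = ∑ t : Fin (d + 1), row d x j t * F.coeff t := by
  rw [poly_eq F hF]
  rw [ev_poly]
  rw [← poly_eq F hF]

/-- the criterion. -/
theorem crit {K : Type} [Field K] [CharZero K] {m n : ℕ} (hm : 0 < m) (M : Fin m → ℕ → ℕ)
    (Λ : Fin m → K) (hM : IsMultMatrix n M) (d : ℕ) :
    (∃ F : K[X], Extends n M Λ F ∧ F.natDegree ≤ d) ↔
      (n ≤ d ∧ ∀ i, ∀ j ≤ n, M i j = 0 → row d (Λ i) j ∉
        Submodule.span K {v | ∃ i' j', j' ≤ n ∧ 1 ≤ M i' j' ∧ v = row d (Λ i') j'}) := by
  classical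
  constructor
  · rintro ⟨F, ⟨hF0, hFn, hFe⟩, hFd⟩
    have hpat := (pattern M hM Λ F hF0 hFn).1 hFe
    refine ⟨hFn.trans hFd, fun i j hj hij hmem => ?_⟩
    set φ : (Fin (d + 1) → K) →ₗ[K] K :=
      ∑ t : Fin (d + 1), F.coeff t • LinearMap.proj t with hφ
    have hφv : ∀ v, φ v = ∑ t : Fin (d + 1), v t * F.coeff t := by
      intro v
      rw [hφ, LinearMap.sum_apply]
      refine Finset.sum_congr rfl fun t _ => ?_
      rw [LinearMap.smul_apply, LinearMap.proj_apply, smul_eq_mul, mul_comm]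
    have h1 : Submodule.span K {v | ∃ i' j', j' ≤ n ∧ 1 ≤ M i' j' ∧ v = row d (Λ i') j'} ≤
        LinearMap.ker φ := by
      rw [Submodule.span_le]
      rintro v ⟨i', j', h1, h2, rfl⟩
      rw [SetLike.mem_coe, LinearMap.mem_ker, hφv, ← ev_eq d (Λ i') j' F hFd]
      exact (hpat i' j' h1).2 h2
    have h2 := LinearMap.mem_ker.1 (h1 hmem)
    rw [hφv, ← ev_eq d (Λ i) j F hFd] at h2
    have h3 := (hpat i j hj).1 h2
    omega
  · rintro ⟨hnd, hc⟩
    set Z : Fin m → ℕ → Prop := fun i l => l ≤ n ∧ 1 ≤ M i l with hZ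
    obtain ⟨F, hF, hFT⟩ := avoid (condSpace d Z Λ)
      ((Finset.univ ×ˢ Finset.range (n + 1)).filter (fun p : Fin m × ℕ => ¬ Z p.1 p.2))
      (fun p => ev (Λ p.1) p.2) (by
        intro p hp
        rw [Finset.mem_filter, Finset.mem_product, Finset.mem_range] at hp
        have hp2 : M p.1 p.2 = 0 := by
          by_contra h
          exact hp.2 ⟨by omega, by omega⟩
        have h1 := hc p.1 p.2 (by omega) hp2
        obtain ⟨φ, hφ, hφ0⟩ := Submodule.exists_dual_map_eq_bot_of_notMem h1 inferInstance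
        have h2 : ∀ v : Fin (d + 1) → K, φ v = ∑ t, v t * φ (Pi.single t 1) := by
          intro v
          have h3 : v = ∑ t, v t • (Pi.single t (1 : K) : Fin (d + 1) → K) := by
            funext t
            rw [Finset.sum_apply, Finset.sum_eq_single t]
            · simp
            · intro b _ hb
              simp [Pi.single_apply, Ne.symm hb]
            · intro h
              exact absurd (Finset.mem_univ _) h
          conv_lhs => rw [h3]
          rw [map_sum]
          refine Finset.sum_congr rfl fun t _ => ?_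
          rw [map_smul, smul_eq_mul]
        refine ⟨poly (fun t => φ (Pi.single t 1)), ⟨poly_natDegree _, fun i l hil => ?_⟩, ?_⟩
        · rw [ev_poly, ← h2]
          have h4 : φ (row d (Λ i) l) ∈ Submodule.map φ (Submodule.span K
              {v | ∃ i' j', j' ≤ n ∧ 1 ≤ M i' j' ∧ v = row d (Λ i') j'}) :=
            Submodule.mem_map_of_mem (Submodule.subset_span ⟨i, l, hil.1, hil.2, rfl⟩)
          rw [hφ0] at h4
          exact (Submodule.mem_bot K).1 h4
        · rw [ev_poly, ← h2]
          exact hφ)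
    have hFT' : ∀ i, ∀ j ≤ n, ¬ Z i j → ev (Λ i) j F ≠ 0 := by
      intro i j hj hij
      exact hFT (i, j) (by
        rw [Finset.mem_filter, Finset.mem_product, Finset.mem_range]
        exact ⟨⟨Finset.mem_univ _, by show j < n + 1; omega⟩, hij⟩)
    have h1 : ev (Λ ⟨0, hm⟩) n F ≠ 0 := by
      refine hFT' ⟨0, hm⟩ n le_rfl ?_
      rintro ⟨_, h⟩
      rw [hM.last] at h
      omega
    have hF0 : F ≠ 0 := by
      intro h
      apply h1
      rw [h, map_zero]
    have hFn : n ≤ F.natDegree := by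
      by_contra h
      apply h1
      rw [ev_apply, iterate_derivative_eq_zero (by omega), eval_zero]
    refine ⟨F, ⟨hF0, hFn, ?_⟩, hF.1⟩
    rw [pattern M hM Λ F hF0 hFn]
    intro i j hj
    constructor
    · intro h
      by_contra h2
      exact hFT' i j hj (fun h3 => h2 h3.2) h
    · intro h
      exact hF.2 i j ⟨hj, h⟩

/-- one functional at a time, by Hermite interpolation. -/
theorem hermite_one {K : Type} [Field K] [CharZero K] {m n : ℕ} (Z : Fin m → ℕ → Prop)
    (Λ : Fin m → K) (hΛ : Function.Injective Λ) (c : Fin m → ℕ) (hZn : ∀ i l, Z i l → l ≤ n)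
    (hc : ∀ i l, Z i l → l < c i) (D : ℕ) (i0 : Fin m)
    (hD : n + ∑ i ∈ Finset.univ.erase i0, c i ≤ D) (k0 : ℕ) (hk0 : k0 ≤ n) (h0 : ¬ Z i0 k0) :
    ∃ F ∈ condSpace D Z Λ, ev (Λ i0) k0 F ≠ 0 := by
  classical
  set Q : K[X] := ∏ i ∈ Finset.univ.erase i0, (X - C (Λ i)) ^ c i with hQ
  set R : K[X] := (X - C (Λ i0)) ^ (n + 1) with hR
  have hRm : R.Monic := (monic_X_sub_C _).pow _
  have hcop : IsCoprime Q R := by
    rw [hQ, hR]
    refine IsCoprime.prod_left fun i hi => ?_
    refine IsCoprime.pow ?_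
    refine isCoprime_X_sub_C_of_isUnit_sub ?_
    have : Λ i - Λ i0 ≠ 0 := sub_ne_zero.2 (fun h => (Finset.ne_of_mem_erase hi) (hΛ h))
    exact isUnit_iff_ne_zero.2 this
  obtain ⟨u, v, huv⟩ := hcop
  set P0 : K[X] := u * (X - C (Λ i0)) ^ k0 with hP0
  set P : K[X] := P0 %ₘ R with hP
  have hPd : P.natDegree ≤ n := by
    have h1 : P.natDegree < R.natDegree := natDegree_modByMonic_lt _ hRm (by
      intro h
      have h2 : R.natDegree = n + 1 := by
        rw [hR, natDegree_pow, natDegree_X_sub_C, mul_one]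
      rw [h, natDegree_one] at h2
      omega)
    rw [hR, natDegree_pow, natDegree_X_sub_C, mul_one] at h1
    omega
  have hQd : Q.natDegree = ∑ i ∈ Finset.univ.erase i0, c i := by
    rw [hQ, natDegree_prod _ _ (fun i _ => pow_ne_zero _ (X_sub_C_ne_zero _))]
    refine Finset.sum_congr rfl fun i _ => ?_
    rw [natDegree_pow, natDegree_X_sub_C, mul_one]
  have hcong : ∃ w, Q * P = (X - C (Λ i0)) ^ k0 + R * w := by
    refine ⟨- v * (X - C (Λ i0)) ^ k0 - Q * (P0 /ₘ R), ?_⟩
    have h1 : P = P0 - R * (P0 /ₘ R) := by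
      rw [hP, modByMonic_eq_sub_mul_div]
    rw [h1, hP0]
    linear_combination (X - C (Λ i0)) ^ k0 * huv
  obtain ⟨w, hw⟩ := hcong
  have hev : ∀ l ≤ n, ev (Λ i0) l (Q * P) =
      ((k0.descFactorial l : ℕ) : K) * (0 : K) ^ (k0 - l) := by
    intro l hl
    rw [hw, map_add]
    have h1 : ev (Λ i0) l (R * w) = 0 := by
      have h2 : (X - C (Λ i0)) ^ (n + 1 - l) ∣ derivative^[l] (R * w) :=
        pow_sub_dvd_iterate_derivative_of_pow_dvd l (Dvd.intro w rfl)
      have h3 : (X - C (Λ i0)) ∣ derivative^[l] (R * w) :=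
        (dvd_pow_self _ (by omega)).trans h2
      exact dvd_iff_isRoot.1 h3
    rw [h1, add_zero, ev_apply, iterate_derivative_X_sub_pow]
    simp
  refine ⟨Q * P, ⟨?_, fun i l hil => ?_⟩, ?_⟩
  · refine natDegree_mul_le.trans ?_
    omega
  · by_cases hi : i = i0
    · subst hi
      rw [hev l (hZn i l hil)]
      rcases lt_trichotomy l k0 with h1 | h1 | h1
      · rw [zero_pow (by omega), mul_zero]
      · subst h1
        exact absurd hil h0
      · rw [Nat.descFactorial_of_lt h1, Nat.cast_zero, zero_mul]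
    · have h1 : (X - C (Λ i)) ^ c i ∣ Q * P :=
        (Finset.dvd_prod_of_mem (fun i => (X - C (Λ i)) ^ c i)
          (Finset.mem_erase.2 ⟨hi, Finset.mem_univ i⟩)).trans (Dvd.intro P rfl)
      have h2 : (X - C (Λ i)) ^ (c i - l) ∣ derivative^[l] (Q * P) :=
        pow_sub_dvd_iterate_derivative_of_pow_dvd l h1
      have h4 := hc i l hil
      have h3 : (X - C (Λ i)) ∣ derivative^[l] (Q * P) :=
        (dvd_pow_self _ (by omega)).trans h2
      exact dvd_iff_isRoot.1 h3
  · rw [hev k0 hk0, Nat.sub_self, pow_zero, mul_one, Nat.descFactorial_self]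
    exact_mod_cast Nat.factorial_ne_zero k0

/-- from single functionals to an extension. -/
theorem of_single {K : Type} [Field K] [CharZero K] {m n : ℕ} (hm : 0 < m) (M : Fin m → ℕ → ℕ)
    (Λ : Fin m → K) (hM : IsMultMatrix n M) (d : ℕ)
    (h : ∀ i, ∀ j ≤ n, ¬ (j ≤ n ∧ 1 ≤ M i j) →
      ∃ F ∈ condSpace d (fun i l => l ≤ n ∧ 1 ≤ M i l) Λ, ev (Λ i) j F ≠ 0) :
    ∃ F : K[X], Extends n M Λ F ∧ F.natDegree ≤ d := by
  classical
  set Z : Fin m → ℕ → Prop := fun i l => l ≤ n ∧ 1 ≤ M i l with hZ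
  obtain ⟨F, hF, hFT⟩ := avoid (condSpace d Z Λ)
    ((Finset.univ ×ˢ Finset.range (n + 1)).filter (fun p : Fin m × ℕ => ¬ Z p.1 p.2))
    (fun p => ev (Λ p.1) p.2) (by
      intro p hp
      rw [Finset.mem_filter, Finset.mem_product, Finset.mem_range] at hp
      exact h p.1 p.2 (by omega) hp.2)
  have hFT' : ∀ i, ∀ j ≤ n, ¬ Z i j → ev (Λ i) j F ≠ 0 := by
    intro i j hj hij
    exact hFT (i, j) (by
      rw [Finset.mem_filter, Finset.mem_product, Finset.mem_range]
      exact ⟨⟨Finset.mem_univ _, by show j < n + 1; omega⟩, hij⟩)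
  have h1 : ev (Λ ⟨0, hm⟩) n F ≠ 0 := by
    refine hFT' ⟨0, hm⟩ n le_rfl ?_
    rintro ⟨_, h⟩
    rw [hM.last] at h
    omega
  have hF0 : F ≠ 0 := by
    intro h
    apply h1
    rw [h, map_zero]
  have hFn : n ≤ F.natDegree := by
    by_contra h
    apply h1
    rw [ev_apply, iterate_derivative_eq_zero (by omega), eval_zero]
  refine ⟨F, ⟨hF0, hFn, ?_⟩, hF.1⟩
  rw [pattern M hM Λ F hF0 hFn]
  intro i j hj
  constructor
  · intro h
    by_contra h2
    exact hFT' i j hj (fun h3 => h2 h3.2) h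
  · intro h
    exact hF.2 i j ⟨hj, h⟩

theorem sInf_eq_of (A B : Set ℕ) (h : ∀ d, d ∈ B ↔ ∃ a ∈ A, a ≤ d) : sInf A = sInf B := by
  by_cases hA : A.Nonempty
  · have hB : B.Nonempty := ⟨sInf A, (h _).2 ⟨sInf A, Nat.sInf_mem hA, le_rfl⟩⟩
    apply le_antisymm
    · obtain ⟨a, ha, hab⟩ := (h _).1 (Nat.sInf_mem hB)
      exact (Nat.sInf_le ha).trans hab
    · exact Nat.sInf_le ((h _).2 ⟨sInf A, Nat.sInf_mem hA, le_rfl⟩)
  · rw [Set.not_nonempty_iff_eq_empty] at hA
    have hB : B = ∅ := by
      rw [Set.eq_empty_iff_forall_notMem]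
      intro d hd
      obtain ⟨a, ha, _⟩ := (h d).1 hd
      rw [hA] at ha
      exact ha
    rw [hA, hB]

theorem g_eq (n : ℕ) (M : Fin 2 → ℕ → ℕ) (k : ℕ) :
    k + ((Finset.univ ×ˢ Finset.Icc k n).filter (fun p : Fin 2 × ℕ => 1 ≤ M p.1 p.2)).card =
      g n (fun i l => l ≤ n ∧ 1 ≤ M i l) k := by
  classical
  unfold g
  congr 1
  rw [Finset.card_filter, Finset.sum_product_right]
  have hI : Finset.Icc k n = Finset.Ico k (n + 1) := by
    ext l
    rw [Finset.mem_Icc, Finset.mem_Ico]
    omega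
  rw [hI]
  refine Finset.sum_congr rfl fun l hl => ?_
  rw [Finset.mem_Ico] at hl
  rw [← Finset.card_filter]
  have h1 : col (fun i l => l ≤ n ∧ 1 ≤ M i l) l =
      (Finset.univ.filter (fun i : Fin 2 => l ≤ n ∧ 1 ≤ M i l)).card := col_def _ l _
  rw [h1]
  congr 1
  ext i
  rw [Finset.mem_filter, Finset.mem_filter]
  constructor
  · intro h
    exact ⟨h.1, by omega, h.2⟩
  · intro h
    exact ⟨h.1, h.2.2⟩

end part5

theorem result :
    (∀ (K : Type) [Field K] [CharZero K] (n : ℕ) (M : Fin 2 → ℕ → ℕ) (Λ : Fin 2 → K),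
      IsMultMatrix n M → Function.Injective Λ →
      (∃ F : K[X], Extends n M Λ F) ∧
      N n M Λ = (Finset.range (n + 1)).sup (fun k => k +
        ((Finset.univ ×ˢ Finset.Icc k n).filter (fun p : Fin 2 × ℕ => 1 ≤ M p.1 p.2)).card)) ∧
    (∀ (K : Type) [Field K] [CharZero K] (m n : ℕ) (M : Fin m → ℕ → ℕ) (Λ : Fin m → K),
      0 < m → IsMultMatrix n M → Function.Injective Λ →
      N n M Λ = sInf {d | n ≤ d ∧ ∀ i, ∀ j ≤ n, M i j = 0 → row d (Λ i) j ∉
        Submodule.span K {v | ∃ i' j', j' ≤ n ∧ 1 ≤ M i' j' ∧ v = row d (Λ i') j'}}) ∧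
    (∀ (K : Type) [Field K] [CharZero K] (m n : ℕ) (M : Fin m → ℕ → ℕ) (Λ : Fin m → K),
      0 < m → IsMultMatrix n M → Function.Injective Λ →
      ∀ (c : Fin m → ℕ) (d : ℕ), (∀ i, ∀ j ≤ n, 1 ≤ M i j → j < c i) →
        (∀ i0, n + ∑ i ∈ Finset.univ.erase i0, c i ≤ d) →
        (∃ F : K[X], Extends n M Λ F) ∧ N n M Λ ≤ d) := by
  classical
  refine ⟨?_, ?_, ?_⟩
  · intro K _ _ n M Λ hM hΛ
    have hx : Λ 0 ≠ Λ 1 := fun h => by
      have := hΛ h
      exact absurd this (by decide)
    have hsup : (Finset.range (n + 1)).sup (fun k => k +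
        ((Finset.univ ×ˢ Finset.Icc k n).filter (fun p : Fin 2 × ℕ => 1 ≤ M p.1 p.2)).card) =
        (Finset.range (n + 1)).sup (g n (fun i l => l ≤ n ∧ 1 ≤ M i l)) := by
      refine Finset.sup_congr rfl fun k _ => ?_
      exact g_eq n M k
    rw [hsup]
    set D := (Finset.range (n + 1)).sup (g n (fun i l => l ≤ n ∧ 1 ≤ M i l)) with hD
    have hg : ∀ k ≤ n, g n (fun i l => l ≤ n ∧ 1 ≤ M i l) k ≤ D := by
      intro k hk
      exact Finset.le_sup (f := g n (fun i l => l ≤ n ∧ 1 ≤ M i l))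
        (Finset.mem_range.2 (by omega))
    have hnD : n ≤ D := by
      refine le_trans ?_ (hg n le_rfl)
      unfold g
      omega
    obtain ⟨F, hF, hFd⟩ := upper Λ hx n M hM D hnD hg
    refine ⟨⟨F, hF⟩, le_antisymm ?_ ?_⟩
    · have h1 : N n M Λ ≤ F.natDegree := Nat.sInf_le
        (show F.natDegree ∈ {d | ∃ F : K[X], Extends n M Λ F ∧ F.natDegree = d} from ⟨F, hF, rfl⟩)
      exact h1.trans hFd
    · obtain ⟨F', hF', hd'⟩ := Nat.sInf_mem
        (show {d | ∃ F : K[X], Extends n M Λ F ∧ F.natDegree = d}.Nonempty from ⟨_, F, hF, rfl⟩)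
      refine Finset.sup_le fun k hk => ?_
      rw [Finset.mem_range] at hk
      have h1 := lower Λ hx n M hM F' hF' k (by omega)
      rw [hd'] at h1
      exact h1
  · intro K _ _ m n M Λ hm hM hΛ
    refine sInf_eq_of _ _ fun d => ?_
    rw [Set.mem_ofPred_eq, ← crit hm M Λ hM d]
    constructor
    · rintro ⟨F, hF, hd⟩
      exact ⟨_, ⟨F, hF, rfl⟩, hd⟩
    · rintro ⟨a, ⟨F, hF, rfl⟩, hd⟩
      exact ⟨F, hF, hd⟩
  · intro K _ _ m n M Λ hm hM hΛ c d hc hd
    obtain ⟨F, hF, hFd⟩ := of_single hm M Λ hM d fun i j hj hij =>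
      hermite_one (fun i l => l ≤ n ∧ 1 ≤ M i l) Λ hΛ c (fun i l h => h.1)
        (fun i l h => hc i l h.1 h.2) d i (hd i) j hj hij
    refine ⟨⟨F, hF⟩, ?_⟩
    have h1 : N n M Λ ≤ F.natDegree := Nat.sInf_le
      (show F.natDegree ∈ {d | ∃ F : K[X], Extends n M Λ F ∧ F.natDegree = d} from ⟨F, hF, rfl⟩)
    exact h1.trans hFd

end Pool.Agent.Results.MP_680f50_nt.TwoNodes
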